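import Pool.Agent.MP_5c28a4_al.H89S.Spec

/-!
The local normaliser lemma, in window form and in ultrapower form.
-/

set_option autoImplicit false

namespace Pool.Agent.MP_5c28a4_al.H89S

namespace LnA

variable {G : Type} [Group G]

theorem eq_one {r m e : ℕ} (h : m.Coprime r) {x : G} (h1 : x ^ m = 1) (h2 : x ^ r ^ e = 1) :
    x = 1 := by
  rw [← orderOf_eq_one_iff]
  exact Nat.eq_one_of_dvd_coprimes (h.pow_right e) (orderOf_dvd_of_pow_eq_one h1)
    (orderOf_dvd_of_pow_eq_one h2)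

theorem inf_sup {J R A : Subgroup G} [R.Normal] (h1 : R ≤ A) (h2 : A ≤ J ⊔ R) :
    (J ⊓ A) ⊔ R = A := by
  refine le_antisymm (sup_le inf_le_right h1) fun x hx => ?_
  obtain ⟨j, hj, y, hy, rfl⟩ := Subgroup.mem_sup_of_normal_right.1 (h2 hx)
  exact mul_mem (Subgroup.mem_sup_left ⟨hj, (A.mul_mem_cancel_right (h1 hy)).1 hx⟩)
    (Subgroup.mem_sup_right hy)

theorem mem_of_mk {R E : Subgroup G} [R.Normal] (h : R ≤ E) {a b : G}
    (e : QuotientGroup.mk' R a = QuotientGroup.mk' R b) (hb : b ∈ E) : a ∈ E := by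
  obtain ⟨z, hz, rfl⟩ := (QuotientGroup.mk'_eq_mk' R).1 e
  exact (E.mul_mem_cancel_right (h hz)).1 hb

/-- one letter -/
theorem core (h : BSt) {X R J : Subgroup G} {r : ℕ} (hr : r.Prime) (hX : X.Normal) (hL : LocFin X)
    (hR : R.Normal) (hRX : R ≤ X) (hc : ∀ x ∈ R, ∃ m : ℕ, m.Coprime r ∧ x ^ m = 1) (hJ : J ≤ X)
    (hf : Finite J) (hp : IsPGroup r J) (g : G) : ∃ u ∈ R, ∀ y ∈ J,
      (g * y * g⁻¹ ∈ J ⊔ R → u * g * y * (u * g)⁻¹ ∈ J) ∧
      (g⁻¹ * y * g ∈ J ⊔ R → (u * g)⁻¹ * y * (u * g) ∈ J) := by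
  let c : G →* G := (MulAut.conj g).toMonoidHom
  let c' : G →* G := (MulAut.conj g⁻¹).toMonoidHom
  have hm : ∀ (H : Subgroup G) y, y ∈ H.comap c' ↔ g⁻¹ * y * g ∈ H := fun H y => by simp [c']
  have e : ∀ H : Subgroup G, H.comap c' = H.map c := fun H => by
    ext y
    rw [hm]
    exact ⟨fun hy => ⟨_, hy, by simp [c, mul_assoc]⟩, by
      rintro ⟨z, hz, rfl⟩
      simpa [c, mul_assoc] using hz⟩
  have e1 : R.comap c' = R := by
    ext y
    rw [hm]
    exact ⟨fun hy => by simpa [mul_assoc] using hR.conj_mem _ hy g, fun hy => hR.conj_mem' y hy g⟩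
  have h1 : R ≤ (J ⊔ R) ⊓ (J ⊔ R).comap c :=
    le_inf le_sup_right fun y hy => Subgroup.mem_sup_right (hR.conj_mem y hy g)
  have h2 : R ≤ ((J ⊔ R) ⊓ (J ⊔ R).comap c).comap c' := e1.ge.trans (Subgroup.comap_mono h1)
  have h3 : ((J ⊔ R) ⊓ (J ⊔ R).comap c).comap c' ≤ J ⊔ R := fun y hy => by
    simpa [c, mul_assoc] using ((hm _ y).1 hy).2
  have f1 : Finite (J ⊓ ((J ⊔ R) ⊓ (J ⊔ R).comap c) : Subgroup G) :=
    Finite.of_injective _ (Subgroup.inclusion_injective inf_le_left)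
  obtain ⟨u, hu, hy⟩ := h.conj G X R ((J ⊓ ((J ⊔ R) ⊓ (J ⊔ R).comap c)).map c)
    (J ⊓ ((J ⊔ R) ⊓ (J ⊔ R).comap c).comap c') r hr hL hR hRX
    hc (by
      rintro _ ⟨z, hz, rfl⟩
      exact hX.conj_mem z (hJ hz.1) g)
    (Finite.of_surjective _ (c.subgroupMap_surjective _))
    (Finite.of_injective _ (Subgroup.inclusion_injective inf_le_left))
    (hp.to_inf_left.map c) hp.to_inf_left (by
      have := congrArg (Subgroup.map c) (inf_sup h1 inf_le_left)
      rw [Subgroup.map_sup, ← e R, e1] at this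
      rw [inf_sup h2 h3, this, e])
  simp only [← e, hm] at hy
  refine ⟨u, hu, fun y hy' => ⟨fun h4 => ((hy _).2 ?_).1, fun h4 => ?_⟩⟩
  · rw [show g⁻¹ * (u⁻¹ * (u * g * y * (u * g)⁻¹) * u) * g = y by group]
    exact ⟨hy', Subgroup.mem_sup_left hy', h4⟩
  · have := ((hy y).1 ⟨hy', (hm _ y).2 ⟨h4, by
      simpa [c, mul_assoc] using Subgroup.mem_sup_left hy'⟩⟩).1
    rwa [show g⁻¹ * (u⁻¹ * y * u) * g = (u * g)⁻¹ * y * (u * g) by group] at this

theorem ball_fin (I : Type) [Fintype I] [DecidableEq I] (n : ℕ) :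
    {f : FreeGroup I | f.norm ≤ n}.Finite :=
  (List.finite_length_le (I × Bool) n).preimage FreeGroup.toWord_injective.injOn

theorem win_le {I : Type} [DecidableEq I] {X : Subgroup G} (hX : X.Normal) (g : I → G) (n : ℕ)
    {T : Set G} (hT : ∀ t ∈ T, t ∈ X) : win g n T ≤ X := by
  refine (Subgroup.closure_le _).2 ?_
  rintro _ ⟨f, -, t, ht, rfl⟩
  exact hX.conj_mem t (hT t ht) _

end LnA

open LnA

theorem lnw (h : BSt) : SLNW := by
  classical
  intro G I _ _ _ X R r hr hX hL hR hRX hc g n T hT hTX hP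
  have hW := win_le hX g n hTX
  have hf : Finite (win g n T) := by
    have h1 : {x | ∃ f : FreeGroup I, f.norm ≤ n ∧ ∃ t ∈ T,
        x = FreeGroup.lift g f * t * (FreeGroup.lift g f)⁻¹}.Finite := by
      refine (((ball_fin I n).prod hT).image fun q =>
        FreeGroup.lift g q.1 * q.2 * (FreeGroup.lift g q.1)⁻¹).subset ?_
      rintro _ ⟨f, h1, t, h2, rfl⟩
      exact ⟨(f, t), ⟨h1, h2⟩, rfl⟩
    have := hL h1.toFinset fun t ht => hW (Subgroup.subset_closure (h1.mem_toFinset.1 ht))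
    rwa [h1.coe_toFinset] at this
  obtain ⟨J, j1, j2, j3⟩ := h.lift G X R (win g n T ⊔ R) r hr hL hR le_sup_right (sup_le hW hRX)
    (by rw [Subgroup.relIndex_sup_right]; exact Subgroup.index_ne_zero_of_finite) (by
      intro x hx
      obtain ⟨w, hw, y, hy, rfl⟩ := Subgroup.mem_sup_of_normal_right.1 hx
      obtain ⟨e, he⟩ := hP w hw
      refine ⟨e, mem_of_mk le_rfl ?_ he⟩
      simp [(QuotientGroup.eq_one_iff y).2 hy])
  have hJ : J ≤ X := le_sup_left.trans (j3.le.trans (sup_le hW hRX))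
  choose u hu hu' using fun i => core h hr hX hL hR hRX hc hJ j1 j2 (g i)
  have hw : ∀ (l : List (I × Bool)), l.length ≤ n → ∀ t ∈ T,
      FreeGroup.lift g (.mk l) * t * (FreeGroup.lift g (.mk l))⁻¹ ∈ J ⊔ R := fun l hl t ht =>
    j3 ▸ Subgroup.mem_sup_left
      (Subgroup.subset_closure ⟨_, FreeGroup.norm_mk_le.trans hl, t, ht, rfl⟩)
  have hs : ∀ t, ∃ j, t ∈ T → j ∈ J ∧ QuotientGroup.mk' R j = QuotientGroup.mk' R t := fun t => by
    by_cases ht : t ∈ T
    · obtain ⟨j, hj, y, hy, e⟩ := Subgroup.mem_sup_of_normal_right.1 (hw [] (by simp) t ht)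
      exact ⟨j, fun _ => ⟨hj, (QuotientGroup.mk'_eq_mk' R).2 ⟨y, hy, by simpa using e⟩⟩⟩
    · exact ⟨1, fun h => absurd h ht⟩
  choose s hs using hs
  have hq : ∀ f, QuotientGroup.mk' R (FreeGroup.lift (u * g) f) =
      QuotientGroup.mk' R (FreeGroup.lift g f) := fun f =>
    DFunLike.congr_fun (show (QuotientGroup.mk' R).comp (FreeGroup.lift (u * g)) =
      (QuotientGroup.mk' R).comp (FreeGroup.lift g) from FreeGroup.ext_hom _ _ fun i => by
        simp [(QuotientGroup.eq_one_iff _).2 (hu i)]) f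
  refine ⟨u, J, s, hu, hJ, j1, j2, fun t ht => mem_of_mk le_rfl ?_ R.one_mem,
    (Subgroup.closure_le _).2 ?_⟩
  · rw [map_mul, map_inv, (hs t ht).2, mul_inv_cancel, map_one]
  rintro _ ⟨f, h1, _, ⟨t, ht, rfl⟩, rfl⟩
  rw [← f.mk_toWord]
  rw [FreeGroup.norm] at h1
  generalize f.toWord = l at h1
  induction l with
  | nil => simpa using (hs t ht).1
  | cons a l ih =>
    have h2 := hw _ h1 t ht
    have h3 := hu' a.1 _ (ih (Nat.le_of_succ_le h1))
    obtain ⟨i, _ | _⟩ := a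
    · have e : FreeGroup.mk ((i, false) :: l) = (FreeGroup.of i)⁻¹ * FreeGroup.mk l := rfl
      rw [e] at h2 ⊢
      simpa [mul_assoc] using h3.2 (mem_of_mk le_sup_right (by
        simp only [map_mul, map_inv, hq, (hs t ht).2, FreeGroup.lift_apply_of]; group) h2)
    · have e : FreeGroup.mk ((i, true) :: l) = FreeGroup.of i * FreeGroup.mk l := rfl
      rw [e] at h2 ⊢
      simpa [mul_assoc] using h3.1 (mem_of_mk le_sup_right (by
        simp only [map_mul, map_inv, hq, (hs t ht).2, FreeGroup.lift_apply_of]; group) h2)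

theorem lnu (_ : BSt) (hU : BUlt) (h : SLNW) : SLNU := by
  classical
  intro G I _ _ R E r m hG hr hR hE hL hRE hm hRm hP g
  obtain ⟨a, ha⟩ := exists_surjective_nat E
  choose u J s h1 h2 h3 h4 h5 h6 using fun n : ℕ => h G I E R r hr hE hL hR hRE
    (fun x hx => ⟨m, hm, hRm x hx⟩) g 1 ((fun k => (a k : G)) '' Set.Iic n)
    ((Set.finite_Iic n).image _) (by rintro _ ⟨k, -, rfl⟩; exact (a k).2)
    fun x hx => hP x (win_le hE g 1 (by rintro _ ⟨k, -, rfl⟩; exact (a k).2) hx)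
  have uq : ∀ n x y, x ∈ J n → y ∈ J n → QuotientGroup.mk' R x = QuotientGroup.mk' R y → x = y := by
    intro n x y hx hy e
    obtain ⟨z, hz, rfl⟩ := (QuotientGroup.mk'_eq_mk' R).1 e
    obtain ⟨k, hk⟩ := h4 n ⟨z, ((J n).mul_mem_cancel_left hx).1 hy⟩
    rw [eq_one hm (hRm z hz) (congrArg Subtype.val hk), mul_one]
  have ev : ∀ x : E, ∀ᶠ n in Filter.hyperfilter ℕ, s n x * (x : G)⁻¹ ∈ R ∧ s n x ∈ J n ∧
      QuotientGroup.mk' R (s n x) = QuotientGroup.mk' R x ∧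
      ∀ i, u n i * g i * s n x * (u n i * g i)⁻¹ ∈ J n := fun x => by
    obtain ⟨k, rfl⟩ := ha x
    refine ((Filter.eventually_ge_atTop k).filter_mono Nat.hyperfilter_le_atTop).mono
      fun n hn => ?_
    have h7 := h5 n _ ⟨k, hn, rfl⟩
    refine ⟨h7, ?_, ?_, fun i => ?_⟩
    · exact h6 n (Subgroup.subset_closure ⟨1, by simp, _, ⟨_, ⟨k, hn, rfl⟩, rfl⟩, by simp⟩)
    · rw [← mul_inv_eq_one, ← map_inv, ← map_mul]
      exact (QuotientGroup.eq_one_iff _).2 h7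
    · exact h6 n (Subgroup.subset_closure
        ⟨.of i, by simp, _, ⟨_, ⟨k, hn, rfl⟩, rfl⟩, by simp⟩)
  refine ⟨u, MonoidHom.mk' (fun x => germ fun n => s n x) fun x y => (hU.eq _ _ _).2 ?_, h1,
    fun x => (hU.mem _ _ _).2 ((ev x).mono fun n h => h.1), fun x => ?_,
    fun x hx => (hU.eq _ _ _).2 ?_, fun i x y e => (hU.eq _ _ _).2 ?_⟩
  · filter_upwards [ev x, ev y, ev (x * y)] with n a b c
    refine uq n _ _ c.2.1 (mul_mem a.2.1 b.2.1) ?_
    rw [c.2.2.1]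
    exact (map_mul _ _ _).trans (by rw [← a.2.2.1, ← b.2.2.1, ← map_mul])
  · obtain ⟨e, he⟩ := hP x x.2
    refine ⟨e, (hU.eq _ _ _).2 ?_⟩
    filter_upwards [ev x] with n a
    refine uq n _ _ (pow_mem a.2.1 _) (one_mem _) ?_
    exact (map_pow _ _ _).trans (by
      rw [a.2.2.1, ← map_pow]
      exact (QuotientGroup.eq_one_iff _).2 he)
  · filter_upwards [ev x] with n a
    exact uq n _ _ a.2.1 (one_mem _) (a.2.2.1.trans ((QuotientGroup.eq_one_iff _).2 hx))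
  · filter_upwards [ev x, ev y] with n a b
    refine uq n _ _ b.2.1 (a.2.2.2 i) ?_
    have : QuotientGroup.mk' R (u n i) = 1 := (QuotientGroup.eq_one_iff _).2 (h1 n i)
    change _ = QuotientGroup.mk' R (u n i * g i * s n x * (u n i * g i)⁻¹)
    rw [b.2.2.1]
    simp only [e, map_mul, map_inv, a.2.2.1, this, one_mul]

end Pool.Agent.MP_5c28a4_al.H89S
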